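import Pool.Agent.helper50.MA.Spec1

/-! # Project ma, module B3: interior semiconcavity of the Perron solution -/

set_option autoImplicit false

open MeasureTheory Set Filter Topology Complex
open scoped ContDiff Real

namespace MAP

/-- `‖x‖² ≤ nsq x ≤ 2 ‖x‖²` -/
theorem B3_norm_sq_le (x : C2) : ‖x‖ ^ 2 ≤ nsq x := by
  unfold nsq
  rcases max_choice ‖x.1‖ ‖x.2‖ with h | h
  · rw [Prod.norm_def, h]; nlinarith [sq_nonneg ‖x.2‖]
  · rw [Prod.norm_def, h]; nlinarith [sq_nonneg ‖x.1‖]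

theorem B3_nsq_nonneg (x : C2) : 0 ≤ nsq x := by unfold nsq; positivity

theorem B3_nsq_neg (x : C2) : nsq (-x) = nsq x := by
  unfold nsq; simp

theorem B3_nsq_add (x h : C2) (t : ℝ) (ht : 0 < t) :
    nsq (x + h) ≤ (1 + t) * nsq x + (1 + 1 / t) * nsq h := by
  have key : ∀ a b : ℂ, ‖a + b‖ ^ 2 ≤ (1 + t) * ‖a‖ ^ 2 + (1 + 1 / t) * ‖b‖ ^ 2 := by
    intro a b
    have h1 : ‖a + b‖ ≤ ‖a‖ + ‖b‖ := norm_add_le a b
    have h2 : ‖a + b‖ ^ 2 ≤ (‖a‖ + ‖b‖) ^ 2 := pow_le_pow_left₀ (norm_nonneg _) h1 2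
    have h3 : 2 * ‖a‖ * ‖b‖ ≤ t * ‖a‖ ^ 2 + 1 / t * ‖b‖ ^ 2 := by
      have h4 : 0 ≤ (t * ‖a‖ - ‖b‖) ^ 2 / t := by positivity
      have h5 : (t * ‖a‖ - ‖b‖) ^ 2 / t = t * ‖a‖ ^ 2 + 1 / t * ‖b‖ ^ 2 - 2 * ‖a‖ * ‖b‖ := by
        field_simp
        ring
      linarith
    nlinarith
  have h1 := key x.1 h.1
  have h2 := key x.2 h.2
  unfold nsq
  simp only [Prod.fst_add, Prod.snd_add]
  linarith

/-- second order Taylor bound on the unit ball -/
theorem B3_taylor (g : C2 → ℝ) (hg : ContDiff ℝ ∞ g) : ∃ M D : ℝ, 0 ≤ M ∧ 0 ≤ D ∧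
    ∀ x y : C2, ‖x‖ ≤ 1 → ‖y‖ ≤ 1 →
      |g y - g x - fderiv ℝ g x (y - x)| ≤ M * ‖y - x‖ ^ 2 ∧ ‖fderiv ℝ g x‖ ≤ D := by
  have h2 : ContDiff ℝ 1 (fderiv ℝ g) := hg.fderiv_right (m := 1) (by norm_cast)
  have hdiff : Differentiable ℝ g := hg.differentiable (by simp)
  obtain ⟨M, hM⟩ := (isCompact_closedBall (0 : C2) 1).exists_bound_of_continuousOn
    (h2.continuous_fderiv (by simp)).continuousOn
  obtain ⟨D, hD⟩ := (isCompact_closedBall (0 : C2) 1).exists_bound_of_continuousOn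
    h2.continuous.continuousOn
  have hM0 : 0 ≤ M := (norm_nonneg _).trans (hM 0 (by simp))
  have hD0 : 0 ≤ D := (norm_nonneg _).trans (hD 0 (by simp))
  refine ⟨M, D, hM0, hD0, fun x y hx hy => ⟨?_, hD x (by simpa using hx)⟩⟩
  have hlip : ∀ z ∈ Metric.closedBall (0 : C2) 1,
      ‖fderiv ℝ g z - fderiv ℝ g x‖ ≤ M * ‖z - x‖ := fun z hz =>
    (convex_closedBall (0 : C2) 1).norm_image_sub_le_of_norm_fderiv_le
      (fun w _ => (h2.differentiable (by simp)).differentiableAt) hM (by simpa using hx) hz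
  have hseg : segment ℝ x y ⊆ Metric.closedBall (0 : C2) 1 :=
    (convex_closedBall (0 : C2) 1).segment_subset (by simpa using hx) (by simpa using hy)
  have hder : ∀ z ∈ segment ℝ x y, HasFDerivWithinAt (fun w => g w - fderiv ℝ g x w)
      (fderiv ℝ g z - fderiv ℝ g x) (segment ℝ x y) z := fun z _ =>
    ((hdiff z).hasFDerivAt.sub (fderiv ℝ g x).hasFDerivAt).hasFDerivWithinAt
  have hb : ∀ z ∈ segment ℝ x y, ‖fderiv ℝ g z - fderiv ℝ g x‖ ≤ M * ‖y - x‖ := by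
    intro z hz
    refine (hlip z (hseg hz)).trans (mul_le_mul_of_nonneg_left ?_ hM0)
    obtain ⟨a, b, ha, hb, hab, rfl⟩ := hz
    have e : a • x + b • y - x = b • (y - x) := by
      have : a = 1 - b := by linarith
      rw [this, sub_smul, one_smul, smul_sub]
      abel
    rw [e, norm_smul, Real.norm_of_nonneg hb]
    have hb1 : b ≤ 1 := by linarith
    exact mul_le_of_le_one_left (norm_nonneg _) hb1
  have h3 := (convex_segment x y).norm_image_sub_le_of_norm_hasFDerivWithin_le hder hb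
    (left_mem_segment ℝ x y) (right_mem_segment ℝ x y)
  have e : (fun w => g w - fderiv ℝ g x w) y - (fun w => g w - fderiv ℝ g x w) x =
      g y - g x - fderiv ℝ g x (y - x) := by
    simp only [map_sub]
    ring
  rw [e, Real.norm_eq_abs] at h3
  calc |g y - g x - fderiv ℝ g x (y - x)| ≤ M * ‖y - x‖ * ‖y - x‖ := h3
    _ = M * ‖y - x‖ ^ 2 := by ring

/-- `Fa a` moves points by at most `5 ‖a‖` -/
theorem B3_move (a z : C2) (ha : nsq a ≤ 1 / 4) (hz : nsq z ≤ 1) :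
    ‖Fa a z - z‖ ^ 2 ≤ 25 * nsq a := by
  have hz1 : ‖z‖ ≤ 1 := by
    have := B3_norm_sq_le z
    nlinarith [norm_nonneg z]
  have ha0 := B3_nsq_nonneg a
  have han : ‖a‖ ^ 2 ≤ nsq a := B3_norm_sq_le a
  have hanle : nsq a ≤ 2 * ‖a‖ ^ 2 := by
    unfold nsq
    have h1 : ‖a.1‖ ≤ ‖a‖ := norm_fst_le a
    have h2 : ‖a.2‖ ≤ ‖a‖ := norm_snd_le a
    nlinarith [norm_nonneg a.1, norm_nonneg a.2]
  have ha1 : ‖a‖ ≤ 1 / 2 := by nlinarith [norm_nonneg a]
  have hhp : ‖hp z a‖ ≤ 2 * ‖a‖ := by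
    unfold hp
    refine (norm_add_le _ _).trans ?_
    rw [norm_mul, norm_mul, RCLike.norm_conj, RCLike.norm_conj]
    have h1 : ‖z.1‖ ≤ 1 := (norm_fst_le z).trans hz1
    have h2 : ‖z.2‖ ≤ 1 := (norm_snd_le z).trans hz1
    have h3 : ‖a.1‖ ≤ ‖a‖ := norm_fst_le a
    have h4 : ‖a.2‖ ≤ ‖a‖ := norm_snd_le a
    nlinarith [norm_nonneg a.1, norm_nonneg a.2, norm_nonneg z.1, norm_nonneg z.2, norm_nonneg a]
  have e : Fa a z - z = ((-(2 * nsq a) : ℝ) : ℂ) • z +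
      ((1 - 2 * nsq a : ℝ) : ℂ) • (-a + hp z a • z) := by
    unfold Fa
    have : ((-(2 * nsq a) : ℝ) : ℂ) = ((1 - 2 * nsq a : ℝ) : ℂ) - 1 := by push_cast; ring
    rw [this, sub_smul, one_smul, smul_add, smul_add, smul_sub, smul_neg]
    abel
  have h5 : ‖Fa a z - z‖ ≤ 5 * ‖a‖ := by
    rw [e]
    refine (norm_add_le _ _).trans ?_
    rw [norm_smul, norm_smul, Complex.norm_real, Complex.norm_real, Real.norm_eq_abs,
      Real.norm_eq_abs, abs_neg, abs_of_nonneg (by linarith : 0 ≤ 2 * nsq a),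
      abs_of_nonneg (by linarith : 0 ≤ 1 - 2 * nsq a)]
    have h6 : ‖-a + hp z a • z‖ ≤ 3 * ‖a‖ := by
      refine (norm_add_le _ _).trans ?_
      rw [norm_neg, norm_smul]
      nlinarith [norm_nonneg a, norm_nonneg z, norm_nonneg (hp z a)]
    have h7 : (1 - 2 * nsq a) * ‖-a + hp z a • z‖ ≤ 1 * (3 * ‖a‖) :=
      mul_le_mul (by linarith) h6 (norm_nonneg _) zero_le_one
    have h8 : 2 * nsq a * ‖z‖ ≤ 2 * ‖a‖ := by
      have h9 : 2 * nsq a ≤ 2 * ‖a‖ := by nlinarith [norm_nonneg a]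
      nlinarith [norm_nonneg z, norm_nonneg a]
    linarith
  have h10 : ‖Fa a z - z‖ ^ 2 ≤ (5 * ‖a‖) ^ 2 := pow_le_pow_left₀ (norm_nonneg _) h5 2
  nlinarith

theorem B3 (hA1 : A1_stmt) (hA6 : A6_stmt) (hB1 : B1_stmt) (hB2 : B2_stmt) : B3_stmt := by
  intro g u hg hu ρ hρ0 hρ1
  obtain ⟨u', L, hL0, hu', hLip, hnear⟩ := hB1 g hg
  obtain ⟨hFsm, hFc, hFo, ⟨C₂, hC₂0, hC₂⟩, hFρ⟩ := hB2
  obtain ⟨C₅, hC₅0, hC₅⟩ := hFρ ρ hρ0 hρ1
  obtain ⟨M, D, hM0, hD0, hT⟩ := B3_taylor g hg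
  -- uniqueness of the Perron solution
  have huu : ∀ x ∈ cbal 0 1, u x = u' x := fun x hx =>
    le_antisymm (hu'.2.2.2 u ⟨hu.1, hu.2.1, fun y hy => (hu.2.2.1 y hy).le⟩ x hx)
      (hu.2.2.2 u' ⟨hu'.1, hu'.2.1, fun y hy => (hu'.2.2.1 y hy).le⟩ x hx)
  have hmem : ∀ x : C2, nsq x ≤ 1 → x ∈ cbal 0 1 := fun x hx => by
    simpa [cbal] using hx
  have hmemo : ∀ x : C2, nsq x < 1 → x ∈ bal 0 1 := fun x hx => by
    simpa [bal] using hx
  have hofmem : ∀ x : C2, x ∈ cbal 0 1 → nsq x ≤ 1 := fun x hx => by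
    simpa [cbal] using hx
  have hofmemo : ∀ x : C2, x ∈ bal 0 1 → nsq x < 1 := fun x hx => by
    simpa [bal] using hx
  have hofmems : ∀ x : C2, x ∈ sph 0 1 → nsq x = 1 := fun x hx => by
    simpa [sph] using hx
  have hopen : IsOpen (bal 0 1) := by
    have : bal 0 1 = {x : C2 | nsq x < 1} := by
      ext x; simp [bal]
    rw [this]
    have hc : Continuous nsq := by unfold nsq; fun_prop
    exact isOpen_lt hc continuous_const
  -- the constant of the competitors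
  set K : ℝ := L * C₂ + M * 25 + D * C₂ / 2 with hK
  have hcomp : ∀ a : C2, nsq a ≤ 1 / 4 → ∀ x : C2, nsq x ≤ 1 →
      (1 / 2) * (u (Fa a x) + u (Fa (-a) x)) + -(K * nsq a) ≤ u x := by
    intro a ha x hx
    have ha' : nsq (-a) ≤ 1 / 4 := by rw [B3_nsq_neg]; exact ha
    have hcont : ∀ b : C2, nsq b ≤ 1 / 4 → ContinuousOn (fun y => u (Fa b y)) (cbal 0 1) := by
      intro b hb
      exact hu.1.comp (hFsm b).continuous.continuousOn
        (fun y hy => hmem _ (hFc b y hb (hofmem y hy)))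
    have hpsh : ∀ b : C2, nsq b ≤ 1 / 4 → PshOn (bal 0 1) (fun y => u (Fa b y)) := by
      intro b hb
      exact hA6.2 (bal 0 1) (bal 0 1) (Fa b) u hopen hopen
        (((hFsm b).of_le (by norm_cast)).contDiffOn)
        (fun y hy => hmemo _ (hFo b y hb (hofmemo y hy))) hu.2.1
    have hsum := (hA1 (bal 0 1) hopen _ _ (hpsh a ha) (hpsh (-a) ha')).2.1
    have hhalf := (hA1 (bal 0 1) hopen _ _ hsum hsum).2.2.1 (1 / 2) (by norm_num)
    have hfin := (hA1 (bal 0 1) hopen _ _ hhalf hhalf).2.2.2.1 (-(K * nsq a))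
    refine hu.2.2.2 (fun y => (1 / 2) * (u (Fa a y) + u (Fa (-a) y)) + -(K * nsq a))
      ⟨?_, hfin, ?_⟩ x (hmem x hx)
    · exact (continuousOn_const.mul ((hcont a ha).add (hcont (-a) ha'))).add continuousOn_const
    · intro y hy
      have hy1 := hofmems y hy
      have hyn : ‖y‖ ≤ 1 := by
        have := B3_norm_sq_le y
        nlinarith [norm_nonneg y]
      have hup : ∀ b : C2, nsq b = nsq a → u (Fa b y) ≤
          g y + fderiv ℝ g y (Fa b y - y) + M * (25 * nsq a) + L * (C₂ * nsq a) := by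
        intro b hb
        have hb' : nsq b ≤ 1 / 4 := by rw [hb]; exact ha
        have h1 := hFc b y hb' hy1.le
        have h2 := hnear (Fa b y) (hmem _ h1)
        rw [← huu _ (hmem _ h1)] at h2
        have h3 := ((hC₂ b y hb' hy1.le).2 hy1)
        have h4 := (hT y (Fa b y) hyn (by
          have := B3_norm_sq_le (Fa b y)
          nlinarith [norm_nonneg (Fa b y)])).1
        have h5 := B3_move b y hb' hy1.le
        rw [hb] at h3 h5
        have h6 : L * (1 - nsq (Fa b y)) ≤ L * (C₂ * nsq a) := mul_le_mul_of_nonneg_left h3 hL0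
        have h7 : M * ‖Fa b y - y‖ ^ 2 ≤ M * (25 * nsq a) := mul_le_mul_of_nonneg_left h5 hM0
        have h8 := (abs_le.mp h2).2
        have h9 := (abs_le.mp h4).2
        linarith
      have h1 := hup a rfl
      have h2 := hup (-a) (B3_nsq_neg a)
      have h3 : fderiv ℝ g y (Fa a y - y) + fderiv ℝ g y (Fa (-a) y - y) ≤ D * (C₂ * nsq a) := by
        rw [← map_add]
        have e : Fa a y - y + (Fa (-a) y - y) = Fa a y + Fa (-a) y - (2 : ℂ) • y := by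
          rw [two_smul]; abel
        rw [e]
        refine (le_abs_self _).trans ?_
        rw [← Real.norm_eq_abs]
        refine (ContinuousLinearMap.le_opNorm _ _).trans ?_
        exact mul_le_mul (hT y y hyn hyn).2 ((hC₂ a y ha hy1.le).1) (norm_nonneg _) hD0
      have h4 : K * nsq a = L * (C₂ * nsq a) + M * (25 * nsq a) + D * (C₂ * nsq a) / 2 := by
        rw [hK]; ring
      show 1 / 2 * (u (Fa a y) + u (Fa (-a) y)) + -(K * nsq a) ≤ g y
      rw [h4]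
      linarith
  have hK0 : 0 ≤ K := by positivity
  -- the radius
  set t : ℝ := (1 - ρ ^ 2) / 2 with ht
  have hρ2 : ρ ^ 2 < 1 := by nlinarith
  have ht0 : 0 < t := by rw [ht]; linarith
  set δ : ℝ := min 1 (min (1 / (4 * (C₅ + 1))) (t / (1 + 1 / t))) with hδ
  have hδ0 : 0 < δ := by
    rw [hδ]
    positivity
  refine ⟨2 * L * C₅ + 2 * K * C₅, δ, by positivity, hδ0, ?_⟩
  intro x h hx hh
  have hh0 := B3_nsq_nonneg h
  have hh1 : nsq h ≤ 1 := hh.trans (min_le_left _ _)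
  have hh2 : nsq h ≤ 1 / (4 * (C₅ + 1)) := hh.trans ((min_le_right _ _).trans (min_le_left _ _))
  have hh3 : nsq h ≤ t / (1 + 1 / t) := hh.trans ((min_le_right _ _).trans (min_le_right _ _))
  obtain ⟨a, ha1, ha2, ha3⟩ := hC₅ x h hx hh1
  have ha4 : nsq a ≤ 1 / 4 := by
    have h1 : C₅ * nsq h ≤ 1 / 4 := by
      rw [le_div_iff₀ (by positivity)] at hh2
      nlinarith
    linarith
  have hxle : nsq x ≤ 1 := by linarith
  have hin : ∀ k : C2, nsq k = nsq h → nsq (x + k) ≤ 1 := by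
    intro k hk
    have h1 := B3_nsq_add x k t ht0
    rw [hk] at h1
    rw [le_div_iff₀ (by positivity)] at hh3
    have h2 : (1 + t) * nsq x ≤ (1 + t) * ρ ^ 2 := mul_le_mul_of_nonneg_left hx (by linarith)
    have h3 : t * ρ ^ 2 ≤ t := by nlinarith
    have h4 : ρ ^ 2 = 1 - 2 * t := by rw [ht]; ring
    nlinarith
  have hxh : nsq (x + h) ≤ 1 := hin h rfl
  have hxh' : nsq (x - h) ≤ 1 := by
    rw [sub_eq_add_neg]
    exact hin (-h) (B3_nsq_neg h)
  have hc := hcomp a ha4 x hxle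
  have hl : ∀ y z : C2, nsq y ≤ 1 → nsq z ≤ 1 → ‖z - y‖ ≤ C₅ * nsq h →
      u y ≤ u z + L * (C₅ * nsq h) := by
    intro y z hy hz hyz
    have h1 := hLip y (hmem y hy) z (hmem z hz)
    rw [← huu y (hmem y hy), ← huu z (hmem z hz), norm_sub_rev] at h1
    have h2 : L * ‖z - y‖ ≤ L * (C₅ * nsq h) := mul_le_mul_of_nonneg_left hyz hL0
    have h3 := (abs_le.mp h1).2
    linarith
  have h1 := hl (x + h) (Fa a x) hxh (hFc a x ha4 hxle) ha2
  have h2 := hl (x - h) (Fa (-a) x) hxh' (hFc (-a) x (by rw [B3_nsq_neg]; exact ha4) hxle) ha3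
  have h3 : K * nsq a ≤ K * (C₅ * nsq h) := mul_le_mul_of_nonneg_left ha1 hK0
  nlinarith

end MAP
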