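import Pool.Agent.helper91.MA.I6Base

/-!
# Project ma, module I6: existence of the area measure of the curve
-/

set_option autoImplicit false

open MeasureTheory Set Filter Topology Complex
open scoped ContDiff Real Manifold

namespace DMAProblem

noncomputable section

variable {X : Type} [TopologicalSpace X] [ChartedSpace C2 X]

/-- adapted charts -/
def I6Ad (P : AnticanonicalPair X) (e : OpenPartialHomeomorph X C2) : Prop :=
  e ∈ HolCharts X ∧ ∀ y ∈ e.target, P.sec e y = 0 ↔ y.2 = 0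

/-- the density of the area measure in an adapted chart -/
def I6dn (P : AnticanonicalPair X) (e : OpenPartialHomeomorph X C2) (z : ℂ) : ENNReal :=
  ENNReal.ofReal (lap (P.pot e) (z, 0) e1 / (2 * π))

/-- the region of integration -/
def I6S (e : OpenPartialHomeomorph X C2) (A : Set X) : Set ℂ :=
  {z : ℂ | ((z, 0) : C2) ∈ e.target ∧ e.symm (z, 0) ∈ A}

/-- the measure in an adapted chart -/
def I6m (P : AnticanonicalPair X) (e : OpenPartialHomeomorph X C2) (A : Set X) : ENNReal :=
  ∫⁻ z in I6S e A, I6dn P e z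

omit [ChartedSpace C2 X] in
theorem I6_S_meas [MeasurableSpace X] [BorelSpace X] (e : OpenPartialHomeomorph X C2)
    (A : Set X) (hA : MeasurableSet A) : MeasurableSet (I6S e A) := by
  classical
  have hc : Continuous (fun z : ℂ => ((z, 0) : C2)) := by fun_prop
  have ho : IsOpen ((fun z : ℂ => ((z, 0) : C2)) ⁻¹' e.target) := e.open_target.preimage hc
  have hc2 : ContinuousOn (fun z : ℂ => e.symm (z, 0)) ((fun z : ℂ => ((z, 0) : C2)) ⁻¹' e.target) :=
    e.symm.continuousOn.comp hc.continuousOn (fun z hz => hz)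
  set S : Set ℂ := (fun z : ℂ => ((z, 0) : C2)) ⁻¹' e.target with hS
  have h := hc2.measurable_piecewise (g := fun _ => e.symm (0, 0)) (s := S)
    continuousOn_const ho.measurableSet
  have h2 : I6S e A = S ∩ (S.piecewise (fun z : ℂ => e.symm (z, 0))
        (fun _ => e.symm (0, 0))) ⁻¹' A := by
    ext z
    constructor
    · rintro ⟨h1, h2⟩
      have h1' : z ∈ S := h1
      refine ⟨h1', ?_⟩
      rw [mem_preimage, piecewise_eq_of_mem _ _ _ h1']
      exact h2
    · rintro ⟨h1, h2⟩
      rw [mem_preimage, piecewise_eq_of_mem _ _ _ h1] at h2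
      exact ⟨h1, h2⟩
  rw [h2]
  exact ho.measurableSet.inter (h hA)

/-- potentials in two charts -/
theorem I6_pot (P : AnticanonicalPair X) (e e' : OpenPartialHomeomorph X C2)
    (he : e ∈ HolCharts X) (he' : e' ∈ HolCharts X) (y : C2)
    (hy : y ∈ e.target ∩ e.symm ⁻¹' e'.source) (ξ : C2) :
    lap (P.pot e) y ξ = lap (P.pot e') (tr e e' y) (fderiv ℂ (tr e e') y ξ) := by
  have hO := I6_dom_open e e'
  set O := e.target ∩ e.symm ⁻¹' e'.source with hOdef
  have hT := I6_tr_smooth e e' he he'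
  rw [← hOdef] at hT
  have hJ : ContDiffOn ℂ 2 (jac e e') O := by
    have h1 : ContDiffOn ℂ 2 (fderiv ℂ (tr e e')) O :=
      hT.fderiv_of_isOpen hO (by norm_cast)
    have h2 : jac e e' = fun y => (fderiv ℂ (tr e e') y e1).1 * (fderiv ℂ (tr e e') y e2).2 -
        (fderiv ℂ (tr e e') y e2).1 * (fderiv ℂ (tr e e') y e1).2 := by
      funext y
      exact I6_det _
    rw [h2]
    have h3 : ∀ v : C2, ContDiffOn ℂ 2 (fun y => fderiv ℂ (tr e e') y v) O :=
      fun v => h1.clm_apply contDiffOn_const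
    exact ((h3 e1).fst.mul (h3 e2).snd).sub ((h3 e2).fst.mul (h3 e1).snd)
  have hJne : ∀ z ∈ O, jac e e' z ≠ 0 := fun z hz => I6_jac_ne P e e' he he' z hz.1 hz.2
  have hmaps : MapsTo (tr e e') O e'.target := fun z hz => e'.map_source hz.2
  obtain ⟨hl1, hl2⟩ := I6_log O hO (jac e e') hJ y hy (hJne y hy)
  have hpot' : ContDiffOn ℝ ∞ (P.pot e') e'.target := by
    intro z hz
    have h1 := (P.vol_smooth e' he').contDiffAt (e'.open_target.mem_nhds hz)
    exact (contDiffAt_const.mul (h1.log (P.vol_pos e' he' z hz).ne')).contDiffWithinAt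
  have heq : P.pot e =ᶠ[𝓝 y] fun z => 1 * (fun w => P.pot e' (tr e e' w)) z +
      (-1) * (fun w => Real.log ‖jac e e' w‖) z := by
    filter_upwards [hO.mem_nhds hy] with z hz
    show -(1 / 2) * Real.log (P.vol e z) = 1 * (-(1 / 2) * Real.log (P.vol e' (tr e e' z))) +
      (-1) * Real.log ‖jac e e' z‖
    rw [P.vol_change e he e' he' z hz.1 hz.2, Real.log_mul, Real.log_pow]
    · push_cast
      ring
    · exact pow_ne_zero 2 (norm_ne_zero_iff.mpr (hJne z hz))
    · exact (P.vol_pos e' he' _ (hmaps hz)).ne'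
  have hTy : ContDiffAt ℝ 2 (tr e e') y :=
    ((hT.contDiffAt (hO.mem_nhds hy)).of_le (by norm_cast)).restrict_scalars ℝ
  have hc1 : ContDiffAt ℝ 2 (fun w => P.pot e' (tr e e' w)) y := by
    have h1 : ContDiffAt ℝ 2 (P.pot e') (tr e e' y) :=
      (hpot'.contDiffAt (e'.open_target.mem_nhds (hmaps hy))).of_le (by norm_cast)
    exact ContDiffAt.comp (g := P.pot e') (f := tr e e') y h1 hTy
  rw [I6_lap_congr heq]
  have h1 := MAP.C2_lapcomb (fun w => P.pot e' (tr e e' w)) (fun w => Real.log ‖jac e e' w‖) y 1 (-1)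
    hc1 hl1 ξ
  have h1' : lap (fun z => 1 * (fun w => P.pot e' (tr e e' w)) z +
      (-1) * (fun w => Real.log ‖jac e e' w‖) z) y ξ = 1 * lap (fun w => P.pot e' (tr e e' w)) y ξ +
      (-1) * lap (fun w => Real.log ‖jac e e' w‖) y ξ := h1
  rw [h1', hl2 ξ]
  have h2 := MAP.A6_part1 e'.target O (tr e e') (P.pot e') e'.open_target hO
    (hT.of_le (by norm_cast)) hmaps (hpot'.of_le (by norm_cast)) y hy ξ
  have h2' : lap (fun w => P.pot e' (tr e e' w)) y ξ =
    lap (P.pot e') (tr e e' y) (fderiv ℂ (tr e e') y ξ) := h2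
  rw [h2']
  ring

/-- compatibility of two adapted charts -/
theorem I6_compat [MeasurableSpace X] [BorelSpace X] (P : AnticanonicalPair X)
    (e e' : OpenPartialHomeomorph X C2) (he : I6Ad P e) (he' : I6Ad P e') (A : Set X)
    (hA : MeasurableSet A) (hAe : A ⊆ e.source) (hAe' : A ⊆ e'.source) :
    I6m P e' A = I6m P e A := by
  have hO := I6_dom_open e e'
  set O := e.target ∩ e.symm ⁻¹' e'.source with hOdef
  have hT := I6_tr_smooth e e' he.1 he'.1
  rw [← hOdef] at hT
  -- the second coordinate vanishes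
  have hsnd : ∀ z : ℂ, ((z, 0) : C2) ∈ O → (tr e e' (z, 0)).2 = 0 := by
    intro z hz
    have h1 := P.sec_change e he.1 e' he'.1 (z, 0) hz.1 hz.2
    have h2 := (he.2 (z, 0) hz.1).mpr rfl
    rw [h2, mul_zero] at h1
    exact (he'.2 _ (e'.map_source hz.2)).mp h1
  set φ : ℂ → ℂ := fun z => (tr e e' (z, 0)).1 with hφ
  have hc : Continuous (fun z : ℂ => ((z, 0) : C2)) := by fun_prop
  have hder : ∀ z : ℂ, ((z, 0) : C2) ∈ O → HasFDerivAt (fun z => tr e e' (z, 0))
      ((fderiv ℂ (tr e e') (z, 0)).comp (ContinuousLinearMap.inl ℂ ℂ ℂ)) z := by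
    intro z hz
    have h1 : HasFDerivAt (tr e e') (fderiv ℂ (tr e e') (z, 0)) (z, 0) :=
      ((hT.contDiffAt (hO.mem_nhds hz)).differentiableAt (by norm_num)).hasFDerivAt
    have h2 : HasFDerivAt (fun z : ℂ => ((z, 0) : C2)) (ContinuousLinearMap.inl ℂ ℂ ℂ) z :=
      (ContinuousLinearMap.inl ℂ ℂ ℂ).hasFDerivAt
    exact HasFDerivAt.comp (g := tr e e') (f := fun z : ℂ => ((z, 0) : C2)) z h1 h2
  have hder1 : ∀ z : ℂ, ((z, 0) : C2) ∈ O → HasFDerivAt φ
      (((ContinuousLinearMap.fst ℂ ℂ ℂ).comp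
        ((fderiv ℂ (tr e e') (z, 0)).comp (ContinuousLinearMap.inl ℂ ℂ ℂ))).restrictScalars ℝ) z := by
    intro z hz
    exact (HasFDerivAt.restrictScalars ℝ
      ((ContinuousLinearMap.fst ℂ ℂ ℂ).hasFDerivAt.comp z (hder z hz)))
  have hder2 : ∀ z : ℂ, ((z, 0) : C2) ∈ O → (fderiv ℂ (tr e e') (z, 0) e1).2 = 0 := by
    intro z hz
    have h1 : HasFDerivAt (fun z => (tr e e' (z, 0)).2) ((ContinuousLinearMap.snd ℂ ℂ ℂ).comp
        ((fderiv ℂ (tr e e') (z, 0)).comp (ContinuousLinearMap.inl ℂ ℂ ℂ))) z :=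
      (ContinuousLinearMap.snd ℂ ℂ ℂ).hasFDerivAt.comp z (hder z hz)
    have h2 : (fun z => (tr e e' (z, 0)).2) =ᶠ[𝓝 z] fun _ => 0 := by
      filter_upwards [(hO.preimage hc).mem_nhds hz] with w hw
      exact hsnd w hw
    have h3 : HasFDerivAt (fun z => (tr e e' (z, 0)).2) (0 : ℂ →L[ℂ] ℂ) z :=
      (hasFDerivAt_const (0 : ℂ) z).congr_of_eventuallyEq h2
    have h4 := h1.unique h3
    have h5 := congrArg (fun L : ℂ →L[ℂ] ℂ => L 1) h4
    simpa [e1] using h5
  -- the two regions
  set B := I6S e A with hB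
  have hBO : ∀ z ∈ B, ((z, 0) : C2) ∈ O := by
    intro z hz
    exact ⟨hz.1, hAe' hz.2⟩
  have himg : φ '' B = I6S e' A := by
    ext w
    constructor
    · rintro ⟨z, hz, rfl⟩
      have hzO := hBO z hz
      have h1 : tr e e' (z, 0) = (φ z, 0) := by
        ext
        · rfl
        · exact hsnd z hzO
      refine ⟨?_, ?_⟩
      · rw [← h1]
        exact e'.map_source hzO.2
      · rw [← h1]
        show e'.symm (e' (e.symm (z, 0))) ∈ A
        rw [e'.left_inv hzO.2]
        exact hz.2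
    · rintro ⟨hw1, hw2⟩
      set x := e'.symm (w, 0) with hx
      have hxs : x ∈ e.source := hAe hw2
      have hxs' : x ∈ e'.source := e'.map_target hw1
      have hex' : e' x = (w, 0) := e'.right_inv hw1
      have h1 : x ∈ P.curve := by
        rw [I6_curve_iff P e' he'.1 x hxs', hex']
        exact (he'.2 _ hw1).mpr rfl
      rw [I6_curve_iff P e he.1 x hxs] at h1
      have h2 := (he.2 _ (e.map_source hxs)).mp h1
      have h3 : e x = ((e x).1, 0) := by
        ext
        · rfl
        · exact h2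
      refine ⟨(e x).1, ⟨?_, ?_⟩, ?_⟩
      · rw [← h3]
        exact e.map_source hxs
      · rw [← h3, e.left_inv hxs]
        exact hw2
      · show (tr e e' ((e x).1, 0)).1 = w
        rw [← h3]
        show (e' (e.symm (e x))).1 = w
        rw [e.left_inv hxs, hex']
  have hinj : InjOn φ B := by
    intro z1 h1 z2 h2 h12
    have hz1 := hBO z1 h1
    have hz2 := hBO z2 h2
    have e12 : tr e e' (z1, 0) = tr e e' (z2, 0) := by
      ext
      · exact h12
      · rw [hsnd z1 hz1, hsnd z2 hz2]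
    have h3 : e.symm (z1, 0) = e.symm (z2, 0) := e'.injOn hz1.2 hz2.2 e12
    have h4 := e.symm.injOn hz1.1 hz2.1 h3
    exact (Prod.mk.injEq _ _ _ _ ▸ h4).1
  unfold I6m
  rw [← himg, lintegral_image_eq_lintegral_abs_det_fderiv_mul volume (I6_S_meas e A hA)
    (fun z hz => (hder1 z (hBO z hz)).hasFDerivWithinAt) hinj]
  refine setLIntegral_congr_fun (I6_S_meas e A hA) ?_
  intro z hz
  have hzO := hBO z hz
  have h1 : tr e e' (z, 0) = (φ z, 0) := by
    ext
    · rfl
    · exact hsnd z hzO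
  have h2 := I6_pot P e e' he.1 he'.1 (z, 0) hzO e1
  have h3 : fderiv ℂ (tr e e') (z, 0) e1 = (fderiv ℂ (tr e e') (z, 0) e1).1 • e1 := by
    ext
    · simp [e1]
    · rw [hder2 z hzO]
      simp [e1]
  rw [h3, I6_lap_smul, h1] at h2
  show ENNReal.ofReal _ * ENNReal.ofReal (lap (P.pot e') (φ z, 0) e1 / (2 * π)) =
    ENNReal.ofReal (lap (P.pot e) (z, 0) e1 / (2 * π))
  rw [← ENNReal.ofReal_mul (abs_nonneg _), I6_det1, h2]
  congr 1
  rw [abs_of_nonneg (by positivity)]
  have h4 : ((ContinuousLinearMap.fst ℂ ℂ ℂ).comp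
      ((fderiv ℂ (tr e e') (z, 0)).comp (ContinuousLinearMap.inl ℂ ℂ ℂ))) 1 =
      (fderiv ℂ (tr e e') (z, 0) e1).1 := by
    simp [e1]
  rw [h4]
  ring


theorem I6_chartMeasure [MeasurableSpace X] [BorelSpace X] (P : AnticanonicalPair X)
    (e : OpenPartialHomeomorph X C2) :
    ∃ μ : Measure X, ∀ A, MeasurableSet A → μ A = I6m P e A := by
  have hc : Continuous (fun z : ℂ => ((z, 0) : C2)) := by fun_prop
  set S : Set ℂ := (fun z : ℂ => ((z, 0) : C2)) ⁻¹' e.target with hS
  have ho : IsOpen S := e.open_target.preimage hc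
  have hc2 : ContinuousOn (fun z : ℂ => e.symm (z, 0)) S :=
    e.symm.continuousOn.comp hc.continuousOn (fun z hz => hz)
  have hae : AEMeasurable (fun z : ℂ => e.symm (z, 0))
      ((volume.restrict S).withDensity (I6dn P e)) :=
    (hc2.aemeasurable ho.measurableSet).mono_ac (withDensity_absolutelyContinuous _ _)
  refine ⟨((volume.restrict S).withDensity (I6dn P e)).map (fun z : ℂ => e.symm (z, 0)), ?_⟩
  intro A hA
  rw [Measure.map_apply_of_aemeasurable hae hA, withDensity_apply', Measure.restrict_restrict'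
    ho.measurableSet]
  have h1 : (fun z : ℂ => e.symm (z, 0)) ⁻¹' A ∩ S = I6S e A := by
    ext z
    constructor
    · rintro ⟨h1, h2⟩
      exact ⟨h2, h1⟩
    · rintro ⟨h1, h2⟩
      exact ⟨h2, h1⟩
  rw [h1]
  rfl

theorem I6_m_curve (P : AnticanonicalPair X) (e : OpenPartialHomeomorph X C2) (he : I6Ad P e)
    (A : Set X) (hA : A ⊆ P.curveᶜ) : I6m P e A = 0 := by
  have h1 : I6S e A = ∅ := by
    rw [eq_empty_iff_forall_notMem]
    rintro z ⟨hz1, hz2⟩
    apply hA hz2
    rw [I6_curve_iff P e he.1 _ (e.map_target hz1), e.right_inv hz1]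
    exact (he.2 _ hz1).mpr rfl
  unfold I6m
  rw [h1]
  simp

theorem I6_dn_cont (P : AnticanonicalPair X) (e : OpenPartialHomeomorph X C2)
    (he : e ∈ HolCharts X) :
    ContinuousOn (fun z : ℂ => lap (P.pot e) (z, 0) e1 / (2 * π)) {z : ℂ | ((z, 0) : C2) ∈ e.target} := by
  have hc : Continuous (fun z : ℂ => ((z, 0) : C2)) := by fun_prop
  have hpot' : ContDiffOn ℝ ∞ (P.pot e) e.target := by
    intro z hz
    have h1 := (P.vol_smooth e he).contDiffAt (e.open_target.mem_nhds hz)
    exact (contDiffAt_const.mul (h1.log (P.vol_pos e he z hz).ne')).contDiffWithinAt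
  have h1 : ContDiffOn ℝ 1 (fderiv ℝ (P.pot e)) e.target :=
    hpot'.fderiv_of_isOpen e.open_target (by norm_cast)
  have h2 : ContinuousOn (fderiv ℝ (fderiv ℝ (P.pot e))) e.target :=
    h1.continuousOn_fderiv_of_isOpen e.open_target (by norm_num)
  have h3 : ContinuousOn (fun y => lap (P.pot e) y e1) e.target := by
    unfold lap D2
    exact ((h2.clm_apply continuousOn_const).clm_apply continuousOn_const).add
      ((h2.clm_apply continuousOn_const).clm_apply continuousOn_const)
  exact (h3.comp hc.continuousOn (fun z hz => hz)).div_const _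

theorem I6_fin (P : AnticanonicalPair X) (e : OpenPartialHomeomorph X C2)
    (he : e ∈ HolCharts X) (x : X) (hx : x ∈ e.source) :
    ∃ U : Set X, IsOpen U ∧ x ∈ U ∧ U ⊆ e.source ∧ I6m P e U < ⊤ := by
  obtain ⟨r, hr, hK⟩ := Metric.nhds_basis_closedBall.mem_iff.mp
    (e.open_target.mem_nhds (e.map_source hx))
  refine ⟨e.source ∩ e ⁻¹' Metric.ball (e x) r,
    e.continuousOn.isOpen_inter_preimage e.open_source Metric.isOpen_ball,
    ⟨hx, Metric.mem_ball_self hr⟩, inter_subset_left, ?_⟩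
  set K : Set ℂ := Metric.closedBall (e x).1 r with hKdef
  set K' : Set ℂ := K ∩ {z : ℂ | ((z, 0) : C2) ∈ Metric.closedBall (e x) r} with hK'def
  have hc : Continuous (fun z : ℂ => ((z, 0) : C2)) := by fun_prop
  have hK'c : IsCompact K' :=
    (isCompact_closedBall _ _).inter_right (Metric.isClosed_closedBall.preimage hc)
  have hK't : K' ⊆ {z : ℂ | ((z, 0) : C2) ∈ e.target} := fun z hz => hK hz.2
  obtain ⟨M, hM⟩ := hK'c.exists_bound_of_continuousOn ((I6_dn_cont P e he).mono hK't)
  have hsub : I6S e (e.source ∩ e ⁻¹' Metric.ball (e x) r) ⊆ K' := by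
    rintro z ⟨hz1, hz2, hz3⟩
    rw [mem_preimage, e.right_inv hz1] at hz3
    have h1 : ((z, 0) : C2) ∈ Metric.closedBall (e x) r := Metric.ball_subset_closedBall hz3
    refine ⟨?_, h1⟩
    rw [hKdef, Metric.mem_closedBall]
    rw [Metric.mem_closedBall, Prod.dist_eq] at h1
    exact le_trans (le_max_left _ _) h1
  calc I6m P e (e.source ∩ e ⁻¹' Metric.ball (e x) r)
      ≤ ∫⁻ z in K', I6dn P e z := lintegral_mono_set hsub
    _ ≤ ∫⁻ z in K', ENNReal.ofReal M := by
        refine setLIntegral_mono' hK'c.measurableSet ?_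
        intro z hz
        exact ENNReal.ofReal_le_ofReal (le_trans (le_abs_self _) (hM z hz))
    _ < ⊤ := by
        rw [setLIntegral_const]
        exact ENNReal.mul_lt_top ENNReal.ofReal_lt_top hK'c.measure_lt_top

theorem I6_glue [IsManifold (modelWithCornersSelf ℂ C2) ∞ X] [MeasurableSpace X] [BorelSpace X] (P : AnticanonicalPair X)
    (E : X → OpenPartialHomeomorph X C2) (U : X → Set X) (s : Finset X)
    (hs : ∀ x ∈ s, I6Ad P (E x) ∧ IsOpen (U x) ∧ U x ⊆ (E x).source ∧ I6m P (E x) (U x) < ⊤) :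
    ∃ μ : Measure X, IsFiniteMeasure μ ∧ μ P.curveᶜ = 0 ∧ μ (⋃ x ∈ s, U x)ᶜ = 0 ∧
      ∀ e, I6Ad P e → ∀ A, MeasurableSet A → A ⊆ e.source → A ⊆ ⋃ x ∈ s, U x →
        μ A = I6m P e A := by
  classical
  induction s using Finset.induction_on with
  | empty =>
    refine ⟨0, inferInstance, by simp, by simp, ?_⟩
    intro e he A hA _ hA2
    have h1 : A = ∅ := by simpa using hA2
    subst h1
    rw [I6_m_curve P e he ∅ (empty_subset _)]
    simp
  | insert a s ha ih =>
    obtain ⟨μ, hfin, hcur, hV, hf⟩ := ih (fun x hx => hs x (Finset.mem_insert_of_mem hx))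
    obtain ⟨had, haU, hasrc, hafin⟩ := hs a (Finset.mem_insert_self a s)
    obtain ⟨μa, hμa⟩ := I6_chartMeasure P (E a)
    set W : Set X := ⋃ x ∈ s, U x with hW
    have hWo : IsOpen W := isOpen_biUnion fun x hx =>
      (hs x (Finset.mem_insert_of_mem hx)).2.1
    have hUW : (⋃ x ∈ insert a s, U x) = U a ∪ W := by
      rw [Finset.set_biUnion_insert]
    have hD : MeasurableSet (U a \ W) := haU.measurableSet.diff hWo.measurableSet
    refine ⟨μ + μa.restrict (U a \ W), ?_, ?_, ?_, ?_⟩
    · have h1 : IsFiniteMeasure (μa.restrict (U a \ W)) := by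
        refine ⟨?_⟩
        rw [Measure.restrict_apply_univ]
        calc μa (U a \ W) ≤ μa (U a) := measure_mono sdiff_subset
          _ = I6m P (E a) (U a) := hμa _ haU.measurableSet
          _ < ⊤ := hafin
      infer_instance
    · rw [Measure.add_apply, hcur, zero_add]
      have h1 : μa P.curveᶜ = 0 := by
        rw [hμa _ (I6_curve_closed P).measurableSet.compl]
        exact I6_m_curve P (E a) had _ subset_rfl
      exact le_antisymm ((Measure.restrict_apply_le _ _).trans h1.le) zero_le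
    · rw [hUW, Measure.add_apply]
      have h1 : μ (U a ∪ W)ᶜ = 0 :=
        measure_mono_null (compl_subset_compl.mpr subset_union_right) hV
      have h2 : (μa.restrict (U a \ W)) (U a ∪ W)ᶜ = 0 := by
        rw [Measure.restrict_apply' hD]
        have h3 : (U a ∪ W)ᶜ ∩ (U a \ W) = ∅ := by
          ext z
          simp only [mem_inter_iff, mem_compl_iff, mem_union, mem_empty_iff_false,
            iff_false]
          rintro ⟨h1, h2⟩
          exact h1 (Or.inl h2.1)
        rw [h3, measure_empty]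
      rw [h1, h2, add_zero]
    · intro e he A hA hAs hAU
      rw [hUW] at hAU
      obtain ⟨μe, hμe⟩ := I6_chartMeasure P e
      rw [Measure.add_apply, Measure.restrict_apply hA]
      have h1 : μ A = μ (A ∩ W) := by
        have h2 := measure_inter_add_sdiff (μ := μ) A hWo.measurableSet
        have h3 : μ (A \ W) = 0 := measure_mono_null (fun z hz => hz.2) hV
        rw [h3, add_zero] at h2
        exact h2.symm
      have h4 : A ∩ (U a \ W) = A \ W := by
        ext z
        constructor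
        · rintro ⟨h1, h2, h3⟩
          exact ⟨h1, h3⟩
        · rintro ⟨h1, h2⟩
          exact ⟨h1, (hAU h1).resolve_right h2, h2⟩
      have hm1 : MeasurableSet (A ∩ W) := hA.inter hWo.measurableSet
      have hm2 : MeasurableSet (A \ W) := hA.diff hWo.measurableSet
      rw [h1, h4, hf e he (A ∩ W) hm1 (inter_subset_left.trans hAs) inter_subset_right,
        hμa _ hm2]
      have h5 : I6m P (E a) (A \ W) = I6m P e (A \ W) := by
        apply I6_compat P e (E a) he had (A \ W) hm2 (sdiff_subset.trans hAs)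
        intro z hz
        exact hasrc ((hAU hz.1).resolve_right hz.2)
      rw [h5, ← hμe _ hm1, ← hμe _ hm2, ← hμe _ hA]
      exact measure_inter_add_sdiff (μ := μe) A hWo.measurableSet

theorem I6 : I6_stmt := by
  intro X _ _ _ _ _ _ _ P
  classical
  have hex : ∀ x : X, ∃ (e : OpenPartialHomeomorph X C2) (U : Set X), x ∈ P.curve →
      I6Ad P e ∧ IsOpen U ∧ x ∈ U ∧ U ⊆ e.source ∧ I6m P e U < ⊤ := by
    intro x
    by_cases hx : x ∈ P.curve
    · obtain ⟨e, he, hxe, had⟩ := I6_adapted P x hx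
      obtain ⟨U, hU, hxU, hUe, hfin⟩ := I6_fin P e he x hxe
      exact ⟨e, U, fun _ => ⟨⟨he, had⟩, hU, hxU, hUe, hfin⟩⟩
    · exact ⟨chartAt C2 x, ∅, fun h => absurd h hx⟩
  choose E U hEU using hex
  have hcl := I6_curve_closed P
  obtain ⟨s, hs1, hs2⟩ := hcl.isCompact.elim_nhds_subcover U
    (fun x hx => (hEU x hx).2.1.mem_nhds (hEU x hx).2.2.1)
  obtain ⟨μ, hfin, hcur, hV, hf⟩ := I6_glue P E U s (fun x hx => by
    obtain ⟨h1, h2, h3, h4, h5⟩ := hEU x (hs1 x hx)
    exact ⟨h1, h2, h4, h5⟩)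
  have hWo : MeasurableSet (⋃ x ∈ s, U x) :=
    (isOpen_biUnion fun x hx => (hEU x (hs1 x hx)).2.1).measurableSet
  have key : ∀ e, I6Ad P e → ∀ A, MeasurableSet A → A ⊆ e.source → μ A = I6m P e A := by
    intro e he A hA hAs
    obtain ⟨μe, hμe⟩ := I6_chartMeasure P e
    have h1 := measure_inter_add_sdiff (μ := μ) A hWo
    have h2 := measure_inter_add_sdiff (μ := μe) A hWo
    have h3 : μ (A \ ⋃ x ∈ s, U x) = 0 := measure_mono_null (fun z hz => hz.2) hV
    have h4 : μe (A \ ⋃ x ∈ s, U x) = 0 := by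
      rw [hμe _ (hA.diff hWo)]
      exact I6_m_curve P e he _ (fun z hz hzc => hz.2 (hs2 hzc))
    rw [← h1, h3, add_zero, hf e he _ (hA.inter hWo) (inter_subset_left.trans hAs)
      inter_subset_right, ← hμe _ hA, ← h2, h4, add_zero, hμe _ (hA.inter hWo)]
  refine ⟨μ, ⟨hfin, hcur, ?_⟩, ?_⟩
  · intro e he had A hA hAs
    exact key e ⟨he, had⟩ A hA hAs
  · obtain ⟨e0, he0, y0, hy0, hs0⟩ := P.sec_zero
    have hx : e0.symm y0 ∈ P.curve :=
      ⟨e0, he0, e0.map_target hy0, by rw [e0.right_inv hy0]; exact hs0⟩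
    obtain ⟨e, he, hxe, had⟩ := I6_adapted P _ hx
    have h1 : μ e.source = I6m P e e.source :=
      key e ⟨he, had⟩ e.source e.open_source.measurableSet subset_rfl
    have hc : Continuous (fun z : ℂ => ((z, 0) : C2)) := by fun_prop
    have hSo : IsOpen {z : ℂ | ((z, 0) : C2) ∈ e.target} := e.open_target.preimage hc
    have hSe : I6S e e.source = {z : ℂ | ((z, 0) : C2) ∈ e.target} := by
      ext z
      exact ⟨fun h => h.1, fun h => ⟨h, e.map_target h⟩⟩
    have hne : {z : ℂ | ((z, 0) : C2) ∈ e.target}.Nonempty := by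
      refine ⟨(e (e0.symm y0)).1, ?_⟩
      have h2 := (had _ (e.map_source hxe)).mp ((I6_curve_iff P e he _ hxe).mp hx)
      have h3 : e (e0.symm y0) = ((e (e0.symm y0)).1, 0) := by
        ext
        · rfl
        · exact h2
      show ((e (e0.symm y0)).1, (0 : ℂ)) ∈ e.target
      rw [← h3]
      exact e.map_source hxe
    have h4 : I6m P e e.source ≠ 0 := by
      intro h0
      unfold I6m at h0
      rw [hSe, lintegral_eq_zero_iff'] at h0
      · have h5 : (volume.restrict {z : ℂ | ((z, 0) : C2) ∈ e.target})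
            {z : ℂ | ((z, 0) : C2) ∈ e.target} = 0 := by
          refine measure_mono_null ?_ (ae_iff.mp h0)
          intro z hz
          have h6 := P.ricci_pos e he (z, 0) hz e1 (by simp [e1])
          have h7 : 0 < lap (P.pot e) (z, 0) e1 / (2 * π) := div_pos h6 (by positivity)
          exact (ENNReal.ofReal_pos.mpr h7).ne'
        rw [Measure.restrict_apply_self] at h5
        exact (hSo.measure_pos volume hne).ne' h5
      · exact ((I6_dn_cont P e he).aemeasurable hSo.measurableSet).ennreal_ofReal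
    calc (0 : ENNReal) < I6m P e e.source := pos_iff_ne_zero.mpr h4
      _ = μ e.source := h1.symm
      _ ≤ μ univ := measure_mono (subset_univ _)

end

end DMAProblem
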