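import Pool.Agent.helper50.MA.SpecI
import Pool.Agent.helper3.MA.A6
import Pool.Agent.helper4.MA.C2

/-!
# Project ma, module I6 (base): holomorphic charts of a surface, adapted charts of the curve, `log |J|` is
pluriharmonic
-/

set_option autoImplicit false

open MeasureTheory Set Filter Topology Complex
open scoped ContDiff Real Manifold

namespace DMAProblem

noncomputable section

section I6geo

variable {X : Type} [TopologicalSpace X] [ChartedSpace C2 X]

theorem I6_mem_groupoid (g : OpenPartialHomeomorph C2 C2) (h1 : ContDiffOn ℂ ∞ g g.source)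
    (h2 : ContDiffOn ℂ ∞ g.symm g.target) :
    g ∈ contDiffGroupoid ∞ (modelWithCornersSelf ℂ C2) := by
  rw [contDiffGroupoid, mem_groupoid_of_pregroupoid]
  constructor
  · simpa [contDiffPregroupoid] using h1
  · simpa [contDiffPregroupoid] using h2

theorem I6_trans_mem (e : OpenPartialHomeomorph X C2) (he : e ∈ HolCharts X)
    (g : OpenPartialHomeomorph C2 C2)
    (hg : g ∈ contDiffGroupoid ∞ (modelWithCornersSelf ℂ C2)) : e.trans g ∈ HolCharts X := by
  intro e' he'
  have h1 := he e' he'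
  refine ⟨?_, ?_⟩
  · rw [OpenPartialHomeomorph.trans_symm_eq_symm_trans_symm, OpenPartialHomeomorph.trans_assoc]
    exact (contDiffGroupoid ∞ (modelWithCornersSelf ℂ C2)).trans
      ((contDiffGroupoid ∞ (modelWithCornersSelf ℂ C2)).symm hg) h1.1
  · rw [← OpenPartialHomeomorph.trans_assoc]
    exact (contDiffGroupoid ∞ (modelWithCornersSelf ℂ C2)).trans h1.2 hg

omit [ChartedSpace C2 X] in
theorem I6_dom_open (e e' : OpenPartialHomeomorph X C2) :
    IsOpen (e.target ∩ e.symm ⁻¹' e'.source) :=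
  e.symm.continuousOn.isOpen_inter_preimage e.open_target e'.open_source

theorem I6_tr_smooth (e e' : OpenPartialHomeomorph X C2) (he : e ∈ HolCharts X)
    (he' : e' ∈ HolCharts X) :
    ContDiffOn ℂ ∞ (tr e e') (e.target ∩ e.symm ⁻¹' e'.source) := by
  have h := StructureGroupoid.compatible_of_mem_maximalAtlas he he'
  rw [contDiffGroupoid, mem_groupoid_of_pregroupoid] at h
  have h1 := h.1
  have h2 : tr e e' = e' ∘ e.symm := rfl
  rw [h2]
  simpa [contDiffPregroupoid] using h1

theorem I6_jac_ne (P : AnticanonicalPair X) (e e' : OpenPartialHomeomorph X C2)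
    (he : e ∈ HolCharts X) (he' : e' ∈ HolCharts X) (y : C2) (hy : y ∈ e.target)
    (hy' : e.symm y ∈ e'.source) : jac e e' y ≠ 0 := by
  intro h
  have h1 := P.vol_change e he e' he' y hy hy'
  have h2 := P.vol_pos e he y hy
  rw [h1, h] at h2
  simp at h2

theorem I6_curve_iff (P : AnticanonicalPair X) (e : OpenPartialHomeomorph X C2)
    (he : e ∈ HolCharts X) (x : X) (hx : x ∈ e.source) : x ∈ P.curve ↔ P.sec e (e x) = 0 := by
  constructor
  · rintro ⟨e', he', hx', hs⟩
    have h1 := P.sec_change e he e' he' (e x) (e.map_source hx) (by rwa [e.left_inv hx])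
    have h2 := I6_jac_ne P e e' he he' (e x) (e.map_source hx) (by rwa [e.left_inv hx])
    have h3 : tr e e' (e x) = e' x := by simp [tr, e.left_inv hx]
    rw [h3, hs] at h1
    rcases mul_eq_zero.mp h1.symm with h | h
    · exact absurd h h2
    · exact h
  · intro h
    exact ⟨e, he, hx, h⟩

theorem I6_curve_closed [IsManifold (modelWithCornersSelf ℂ C2) ∞ X] (P : AnticanonicalPair X) :
    IsClosed P.curve := by
  rw [← isOpen_compl_iff, isOpen_iff_mem_nhds]
  intro x hx
  have he : chartAt C2 x ∈ HolCharts X :=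
    IsManifold.chart_mem_maximalAtlas x
  have hxs : x ∈ (chartAt C2 x).source := mem_chart_source C2 x
  have h1 : P.sec (chartAt C2 x) (chartAt C2 x x) ≠ 0 := by
    intro h
    exact hx ((I6_curve_iff P _ he x hxs).mpr h)
  have hc : ContinuousAt (P.sec (chartAt C2 x)) (chartAt C2 x x) :=
    ((P.sec_hol _ he).continuousOn).continuousAt
      ((chartAt C2 x).open_target.mem_nhds ((chartAt C2 x).map_source hxs))
  have hc2 : ContinuousAt (fun z => P.sec (chartAt C2 x) (chartAt C2 x z)) x :=
    ContinuousAt.comp (f := chartAt C2 x) (g := P.sec (chartAt C2 x)) hc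
      ((chartAt C2 x).continuousAt hxs)
  filter_upwards [hc2.eventually_ne h1, (chartAt C2 x).open_source.mem_nhds hxs] with z hz hzs
  intro hzc
  exact hz ((I6_curve_iff P _ he z hzs).mp hzc)

/-- adapted charts at the points of the curve -/
theorem I6_adapted (P : AnticanonicalPair X) (x : X) (hx : x ∈ P.curve) :
    ∃ e ∈ HolCharts X, x ∈ e.source ∧ ∀ y ∈ e.target, P.sec e y = 0 ↔ y.2 = 0 := by
  obtain ⟨e, he, hxe, hs⟩ := hx
  set y0 := e x with hy0
  have hy0t : y0 ∈ e.target := e.map_source hxe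
  have hhol := P.sec_hol e he
  have hder := P.sec_smooth e he y0 hy0t hs
  set s := P.sec e with hsdef
  -- the linear form
  obtain ⟨L, hL⟩ : ∃ L : C2 →L[ℂ] ℂ, ∀ v, L v = 0 → fderiv ℂ s y0 v = 0 → v = 0 := by
    by_cases hb : fderiv ℂ s y0 (0, 1) = 0
    · have ha : fderiv ℂ s y0 (1, 0) ≠ 0 := by
        intro ha
        apply hder
        ext <;> simp [ha, hb]
      refine ⟨ContinuousLinearMap.snd ℂ ℂ ℂ, ?_⟩
      intro v hv hv2
      have e1 : v = v.1 • ((1, 0) : C2) := by
        ext
        · simp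
        · simpa using hv
      rw [e1, map_smul, smul_eq_mul] at hv2
      have e2 : v.1 = 0 := (mul_eq_zero.mp hv2).resolve_right ha
      ext
      · simpa using e2
      · simpa using hv
    · refine ⟨ContinuousLinearMap.fst ℂ ℂ ℂ, ?_⟩
      intro v hv hv2
      have e1 : v = v.2 • ((0, 1) : C2) := by
        ext
        · simpa using hv
        · simp
      rw [e1, map_smul, smul_eq_mul] at hv2
      have e2 : v.2 = 0 := (mul_eq_zero.mp hv2).resolve_right hb
      ext
      · simpa using hv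
      · simpa using e2
  set G : C2 → C2 := fun y => (L y, s y) with hG
  have hGs : ContDiffOn ℂ ∞ G e.target := L.contDiff.contDiffOn.prodMk hhol
  have hGat : ∀ y ∈ e.target, ContDiffAt ℂ ∞ G y :=
    fun y hy => hGs.contDiffAt (e.open_target.mem_nhds hy)
  have hDcont : ContinuousOn (fun y => (fderiv ℂ G y).det) e.target := by
    have h1 : ContinuousOn (fderiv ℂ G) e.target :=
      hGs.continuousOn_fderiv_of_isOpen e.open_target (by norm_num)
    exact ContinuousLinearMap.continuous_det.comp_continuousOn h1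
  set V : Set C2 := e.target ∩ {y | (fderiv ℂ G y).det ≠ 0} with hV
  have hVo : IsOpen V := by
    have := hDcont.isOpen_inter_preimage e.open_target (isOpen_ne (x := (0 : ℂ)))
    exact this
  have hy0V : y0 ∈ V := by
    refine ⟨hy0t, ?_⟩
    have h1 : fderiv ℂ G y0 = L.prod (fderiv ℂ s y0) := by
      have h2 : DifferentiableAt ℂ s y0 :=
        (hhol.contDiffAt (e.open_target.mem_nhds hy0t)).differentiableAt (by norm_num)
      exact (L.hasFDerivAt.prodMk h2.hasFDerivAt).fderiv
    have h3 : LinearMap.ker (fderiv ℂ G y0 : C2 →ₗ[ℂ] C2) = ⊥ := by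
      rw [LinearMap.ker_eq_bot']
      intro v hv
      rw [h1] at hv
      have hv' : (L v, fderiv ℂ s y0 v) = 0 := hv
      rw [Prod.mk_eq_zero] at hv'
      exact hL v hv'.1 hv'.2
    have h4 := (LinearMap.isUnit_iff_ker_eq_bot _).mpr h3
    have h5 := (LinearMap.isUnit_iff_isUnit_det _).mp h4
    exact h5.ne_zero
  -- inverse function theorem
  have hd0 : HasFDerivAt G (((fderiv ℂ G y0).toContinuousLinearEquivOfDetNeZero hy0V.2 :
      C2 ≃L[ℂ] C2) : C2 →L[ℂ] C2) y0 := by
    have h1 : DifferentiableAt ℂ G y0 := (hGat y0 hy0t).differentiableAt (by norm_num)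
    rw [ContinuousLinearMap.coe_toContinuousLinearEquivOfDetNeZero]
    exact h1.hasFDerivAt
  set g0 := (hGat y0 hy0t).toOpenPartialHomeomorph G hd0 (by norm_num) with hg0
  have hg0c : ∀ y, g0 y = G y := fun y => rfl
  have hy0g : y0 ∈ g0.source := (hGat y0 hy0t).mem_toOpenPartialHomeomorph_source hd0 (by norm_num)
  set g := g0.restrOpen V hVo with hg
  have hgsrc : g.source = g0.source ∩ V := rfl
  have hgc : ∀ y, g y = G y := fun y => rfl
  have hgG : g ∈ contDiffGroupoid ∞ (modelWithCornersSelf ℂ C2) := by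
    apply I6_mem_groupoid
    · intro y hy
      rw [hgsrc] at hy
      exact (hGat y hy.2.1).contDiffWithinAt
    · intro y hy
      have hy1 : g.symm y ∈ g.source := g.map_target hy
      rw [hgsrc] at hy1
      have h2 : DifferentiableAt ℂ G (g.symm y) :=
        (hGat _ hy1.2.1).differentiableAt (by norm_num)
      have h3 : HasFDerivAt g (((fderiv ℂ G (g.symm y)).toContinuousLinearEquivOfDetNeZero hy1.2.2 :
          C2 ≃L[ℂ] C2) : C2 →L[ℂ] C2) (g.symm y) := by
        rw [ContinuousLinearMap.coe_toContinuousLinearEquivOfDetNeZero]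
        exact h2.hasFDerivAt
      exact (g.contDiffAt_symm hy h3 (hGat _ hy1.2.1)).contDiffWithinAt
  have he' := I6_trans_mem e he g hgG
  refine ⟨e.trans g, he', ?_, ?_⟩
  · rw [OpenPartialHomeomorph.trans_source]
    exact ⟨hxe, hy0g, hy0V⟩
  · intro y hy
    rw [OpenPartialHomeomorph.trans_target] at hy
    obtain ⟨hy1, hy2⟩ := hy
    have hz1 : g.symm y ∈ g.source := g.map_target hy1
    have hz2 : g.symm y ∈ e.target := hy2
    have hz3 : e.symm (g.symm y) ∈ (e.trans g).source := by
      rw [OpenPartialHomeomorph.trans_source]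
      refine ⟨e.map_target hz2, ?_⟩
      show e (e.symm (g.symm y)) ∈ g.source
      rw [e.right_inv hz2]
      exact hz1
    have h1 := P.sec_change e he _ he' (g.symm y) hz2 hz3
    have h2 := I6_jac_ne P e _ he he' (g.symm y) hz2 hz3
    have h3 : tr e (e.trans g) (g.symm y) = y := by
      show g (e (e.symm (g.symm y))) = y
      rw [e.right_inv hz2, g.right_inv hy1]
    have h4 : y.2 = P.sec e (g.symm y) := by
      have : g (g.symm y) = y := g.right_inv hy1
      rw [hgc] at this
      conv_lhs => rw [← this]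
    rw [h3] at h1
    rw [h1, h4]
    simp [h2]

end I6geo


theorem I6_D2_congr {u v : C2 → ℝ} {y : C2} (h : u =ᶠ[𝓝 y] v) (ξ η : C2) :
    D2 u y ξ η = D2 v y ξ η := by
  unfold D2
  rw [h.fderiv.fderiv_eq]

theorem I6_lap_congr {u v : C2 → ℝ} {y : C2} (h : u =ᶠ[𝓝 y] v) (ξ : C2) :
    lap u y ξ = lap v y ξ := by
  unfold lap
  rw [I6_D2_congr h, I6_D2_congr h]

theorem I6_lap_smul (u : C2 → ℝ) (y : C2) (c : ℂ) (ξ : C2) :
    lap u y (c • ξ) = ‖c‖ ^ 2 * lap u y ξ := by
  have h1 : c • ξ = c.re • ξ + c.im • (I • ξ) := by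
    have : c = (c.re : ℂ) + (c.im : ℂ) * I := (Complex.re_add_im c).symm
    conv_lhs => rw [this]
    rw [add_smul, mul_smul]
    rfl
  have h2 : I • (c • ξ) = c.re • (I • ξ) - c.im • ξ := by
    rw [h1, smul_add, smul_comm I c.re ξ, smul_comm I c.im (I • ξ), smul_smul I I, I_mul_I]
    simp [sub_eq_add_neg]
  unfold lap
  rw [h2, h1]
  unfold D2
  simp only [map_add, map_sub, map_smul, _root_.add_apply,
    _root_.smul_apply, smul_eq_mul, _root_.sub_apply]
  rw [Complex.sq_norm, Complex.normSq_apply]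
  ring

theorem I6_lap_affine (c : ℝ) (y ξ : C2) : lap (fun w : C2 => w.1.re + c) y ξ = 0 := by
  have h1 : fderiv ℝ (fun w : C2 => w.1.re + c) =
      fun _ => Complex.reCLM.comp (ContinuousLinearMap.fst ℝ ℂ ℂ) := by
    funext w
    have h2 : HasFDerivAt (fun w : C2 => w.1.re)
        (Complex.reCLM.comp (ContinuousLinearMap.fst ℝ ℂ ℂ)) w :=
      (Complex.reCLM.comp (ContinuousLinearMap.fst ℝ ℂ ℂ)).hasFDerivAt
    exact (h2.add_const c).fderiv
  unfold lap D2
  rw [h1]
  simp

theorem I6_log (O : Set C2) (hO : IsOpen O) (J : C2 → ℂ) (hJ : ContDiffOn ℂ 2 J O) (y : C2)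
    (hy : y ∈ O) (hJy : J y ≠ 0) :
    ContDiffAt ℝ 2 (fun z => Real.log ‖J z‖) y ∧ ∀ ξ, lap (fun z => Real.log ‖J z‖) y ξ = 0 := by
  set V : Set C2 := O ∩ (fun z => J z / J y) ⁻¹' Complex.slitPlane with hV
  have hVo : IsOpen V :=
    (hJ.continuousOn.div_const (J y)).isOpen_inter_preimage hO Complex.isOpen_slitPlane
  have hyV : y ∈ V := by
    refine ⟨hy, ?_⟩
    show J y / J y ∈ Complex.slitPlane
    rw [div_self hJy]
    exact Complex.one_mem_slitPlane
  set F : C2 → C2 := fun z => (Complex.log (J z / J y), 0) with hF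
  have hFs : ContDiffOn ℂ 2 F V := by
    intro z hz
    have h1 : ContDiffAt ℂ 2 J z := hJ.contDiffAt (hO.mem_nhds hz.1)
    have hz2 : J z / J y ∈ Complex.slitPlane := hz.2
    have h0 : ContDiffAt ℂ 2 (fun z => J z / J y) z := h1.div_const (J y)
    have h2 : ContDiffAt ℂ 2 (fun z => Complex.log (J z / J y)) z :=
      ContDiffAt.comp (g := Complex.log) (f := fun z => J z / J y) z
        (Complex.contDiffAt_log hz2) h0
    exact (h2.prodMk contDiffAt_const).contDiffWithinAt
  have heq : (fun z => Real.log ‖J z‖) =ᶠ[𝓝 y]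
      fun z => (fun w : C2 => w.1.re + Real.log ‖J y‖) (F z) := by
    filter_upwards [hVo.mem_nhds hyV] with z hz
    have hz0 : J z ≠ 0 := by
      intro h
      have := hz.2
      simp only [mem_preimage, h, zero_div] at this
      exact Complex.zero_notMem_slitPlane this
    show Real.log ‖J z‖ = (Complex.log (J z / J y)).re + Real.log ‖J y‖
    rw [Complex.log_re, norm_div, Real.log_div (norm_ne_zero_iff.mpr hz0)
      (norm_ne_zero_iff.mpr hJy)]
    ring
  have hu : ContDiff ℝ 2 (fun w : C2 => w.1.re + Real.log ‖J y‖) :=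
    (Complex.reCLM.comp (ContinuousLinearMap.fst ℝ ℂ ℂ)).contDiff.add contDiff_const
  refine ⟨?_, ?_⟩
  · have h1 : ContDiffAt ℝ 2 F y := (hFs.contDiffAt (hVo.mem_nhds hyV)).restrict_scalars ℝ
    exact (hu.contDiffAt.comp y h1).congr_of_eventuallyEq heq
  · intro ξ
    rw [I6_lap_congr heq]
    have h := MAP.A6_part1 univ V F (fun w : C2 => w.1.re + Real.log ‖J y‖) isOpen_univ hVo hFs
      (mapsTo_univ _ _) hu.contDiffOn y hyV ξ
    have h' : lap (fun z => (fun w : C2 => w.1.re + Real.log ‖J y‖) (F z)) y ξ =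
      lap (fun w : C2 => w.1.re + Real.log ‖J y‖) (F y) (fderiv ℂ F y ξ) := h
    rw [h', I6_lap_affine]

theorem I6_det (A : C2 →L[ℂ] C2) :
    A.det = (A e1).1 * (A e2).2 - (A e2).1 * (A e1).2 := by
  have h1 : A.det = LinearMap.det (A : C2 →ₗ[ℂ] C2) := rfl
  rw [h1, ← LinearMap.det_toMatrix (Module.Basis.finTwoProd ℂ), Matrix.det_fin_two]
  simp [LinearMap.toMatrix_apply, e1, e2]

theorem I6_det1 (A : ℂ →L[ℂ] ℂ) : (A.restrictScalars ℝ).det = ‖A 1‖ ^ 2 := by
  have h1 : (A.restrictScalars ℝ).det = LinearMap.det ((A : ℂ →ₗ[ℂ] ℂ).restrictScalars ℝ) := rfl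
  rw [h1, LinearMap.det_restrictScalars, Algebra.norm_complex_apply, LinearMap.det_ring,
    Complex.sq_norm]
  rfl

end

end DMAProblem
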